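import Pool.Agent.H370R2.Rect

/-! Facts on the zeros of zeta on the boundary of the rectangle `[-1/2, 3/2] x [-U, U]`. -/

set_option autoImplicit false

open Filter Topology Set MeasureTheory Complex H370

namespace Pool.Agent.L5helper67.CV2

lemma z1_of_ne {s : ℂ} (hs : s ≠ 1) : riemannZeta₁ s = (s - 1) * riemannZeta s := by
  rw [riemannZeta_eq_inv_sub_mul hs, mul_inv_cancel_left₀ (sub_ne_zero.2 hs)]

/-- no zeros with real part in `[-1/2, 0]` -/
lemma zeta_ne_left {s : ℂ} (h1 : -1 / 2 ≤ s.re) (h2 : s.re ≤ 0) : riemannZeta s ≠ 0 := by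
  by_cases h0 : s = 0
  · rw [h0, riemannZeta_zero]
    norm_num
  have hre : (1 - s).re = 1 - s.re := by simp
  have hn : ∀ n : ℕ, (1 - s) ≠ -n := by
    intro n hn
    have := congrArg Complex.re hn
    rw [hre] at this
    simp only [neg_re, natCast_re] at this
    have hn0 : (0 : ℝ) ≤ n := Nat.cast_nonneg n
    linarith
  have h11 : (1 - s) ≠ 1 := by
    intro h
    apply h0
    linear_combination -h
  have h := riemannZeta_one_sub hn h11
  rw [sub_sub_cancel] at h
  rw [h]
  refine mul_ne_zero (mul_ne_zero (mul_ne_zero (mul_ne_zero two_ne_zero ?_) ?_) ?_) ?_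
  · rw [Ne, Complex.cpow_eq_zero_iff]
    push Not
    intro h
    have hpi : (Real.pi : ℂ) ≠ 0 := by exact_mod_cast Real.pi_ne_zero
    exact absurd h (mul_ne_zero two_ne_zero hpi)
  · apply Complex.Gamma_ne_zero
    exact hn
  · intro hc
    rw [Complex.cos_eq_zero_iff] at hc
    obtain ⟨k, hk⟩ := hc
    have hpi : (Real.pi : ℂ) ≠ 0 := by exact_mod_cast Real.pi_ne_zero
    have hk2 : s = -2 * k := by
      have h3 : (Real.pi : ℂ) * (1 - s) = Real.pi * (2 * k + 1) := by
        linear_combination 2 * hk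
      have h4 := mul_left_cancel₀ hpi h3
      linear_combination -h4
    have h5 : s.re = -2 * k := by
      rw [hk2]
      simp
    have h6 : (k : ℝ) ≤ 1 / 4 := by
      rw [h5] at h1
      linarith
    have h7 : (0 : ℝ) ≤ k := by
      rw [h5] at h2
      linarith
    have h8 : k ≤ 0 := by
      by_contra h9
      push Not at h9
      have h10 : (1 : ℝ) ≤ k := by exact_mod_cast h9
      linarith
    have h9 : 0 ≤ k := by exact_mod_cast h7
    have h10 : k = 0 := le_antisymm h8 h9
    apply h0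
    rw [hk2, h10]
    simp
  · apply riemannZeta_ne_zero_of_one_le_re
    rw [hre]
    linarith

lemma zeta_ne_conj {s : ℂ} (h : riemannZeta s ≠ 0) : riemannZeta ((starRingEnd ℂ) s) ≠ 0 := by
  rw [riemannZeta_conj]
  intro h1
  exact h ((map_eq_zero _).1 h1)

/-- the zeros of the entire function in the closed strip -/
lemma z1_zero {s : ℂ} (h1 : -1 / 2 ≤ s.re) (h : riemannZeta₁ s = 0) :
    s ≠ 1 ∧ 0 < s.re ∧ s.re < 1 ∧ riemannZeta s = 0 := by
  have hs1 : s ≠ 1 := by
    rintro rfl
    simp at h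
  rw [z1_of_ne hs1] at h
  rcases mul_eq_zero.1 h with h | h
  · exact absurd (sub_eq_zero.1 h) hs1
  · refine ⟨hs1, ?_, ?_, h⟩
    · by_contra hc
      push Not at hc
      exact zeta_ne_left h1 hc h
    · by_contra hc
      push Not at hc
      exact riemannZeta_ne_zero_of_one_le_re hc h

lemma mult_z1 {s : ℂ} (hs : s ≠ 1) : mult riemannZeta₁ s = mult riemannZeta s := by
  unfold mult analyticOrderNatAt
  have h1 : riemannZeta₁ =ᶠ[𝓝 s] (fun z => z - 1) * riemannZeta := by
    filter_upwards [isOpen_compl_singleton.mem_nhds hs] with z hz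
    rw [z1_of_ne hz]
    rfl
  have ha : AnalyticAt ℂ (fun z : ℂ => z - 1) s := by fun_prop
  have hb : AnalyticAt ℂ riemannZeta s := by
    have : DifferentiableOn ℂ riemannZeta {1}ᶜ := differentiableOn_riemannZeta
    exact this.analyticAt (isOpen_compl_singleton.mem_nhds hs)
  rw [analyticOrderAt_congr h1, analyticOrderAt_mul ha hb,
    (ha.analyticOrderAt_eq_zero).2 (sub_ne_zero.2 hs), zero_add]

lemma mult_id : mult (fun z : ℂ => z - 1) 1 = 1 := by
  unfold mult analyticOrderNatAt
  have ha : AnalyticAt ℂ (fun z : ℂ => z - 1) 1 := by fun_prop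
  have h : analyticOrderAt (fun z : ℂ => z - 1) 1 = 1 := by
    rw [show (1 : ℕ∞) = ((1 : ℕ) : ℕ∞) by rfl, ha.analyticOrderAt_eq_natCast]
    refine ⟨fun _ => 1, analyticAt_const, one_ne_zero, ?_⟩
    filter_upwards with z
    simp
  rw [h]
  rfl

/-- the logarithmic derivative away from `1` and the zeros -/
lemma ld_split {s : ℂ} (hs : s ≠ 1) (hz : riemannZeta₁ s ≠ 0) :
    deriv riemannZeta s / riemannZeta s = deriv riemannZeta₁ s / riemannZeta₁ s -
      deriv (fun z : ℂ => z - 1) s / (s - 1) := by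
  have h1 := sub_ne_zero.2 hs
  have hd : deriv (fun z : ℂ => z - 1) s = 1 := by
    rw [deriv_sub_const]
    exact deriv_id s
  rw [hd, deriv_riemannZeta_eq_neg_inv_sub_sq_mul_add hs, riemannZeta_eq_inv_sub_mul hs]
  field_simp
  ring

end Pool.Agent.L5helper67.CV2
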