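import Pool.Agent.L5helper12.CV.Defs
import Pool.Agent.L5helper67.CV2.Nv

/-! Job CV2: the residue theorem for the logarithmic derivative of zeta on `[-1/2, 3/2] x [-U, U]`. -/

set_option autoImplicit false

open Filter Topology Set MeasureTheory Complex H370

namespace Pool.Agent.L5helper67.CV2

open Pool.Agent.L5helper12.CV

lemma cont_mk1 (c : ℝ) : Continuous fun x : ℝ => (⟨x, c⟩ : ℂ) := by
  have : (fun x : ℝ => (⟨x, c⟩ : ℂ)) = fun x : ℝ => (x : ℂ) + c * I := by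
    funext x
    apply Complex.ext <;> simp
  rw [this]
  fun_prop

lemma cont_mk2 (c : ℝ) : Continuous fun y : ℝ => (⟨c, y⟩ : ℂ) := by
  have : (fun y : ℝ => (⟨c, y⟩ : ℂ)) = fun y : ℝ => (c : ℂ) + y * I := by
    funext x
    apply Complex.ext <;> simp
  rw [this]
  fun_prop

lemma good_neg {U : ℝ} (hU : good U) {x : ℝ} (hx : x ∈ Icc (-1 / 2 : ℝ) (3 / 2)) :
    riemannZeta (⟨x, -U⟩ : ℂ) ≠ 0 := by
  have h := zeta_ne_conj (hU.2 x hx)
  exact h

/-- integrability of the logarithmic derivative times a continuous function along a path -/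
lemma int_path {F g : ℂ → ℂ} (hF : Differentiable ℂ F) (hg : Continuous g) (p : ℝ → ℂ)
    (hp : Continuous p) {a b : ℝ} (hab : a ≤ b) (h0 : ∀ x ∈ Icc a b, F (p x) ≠ 0) :
    IntervalIntegrable (fun x => deriv F (p x) / F (p x) * g (p x)) volume a b := by
  apply ContinuousOn.intervalIntegrable
  rw [uIcc_of_le hab]
  have h1 : Continuous (deriv F) := hF.deriv.continuous
  exact (((h1.comp hp).continuousOn).div ((hF.continuous.comp hp).continuousOn) h0).mul
    ((hg.comp hp).continuousOn)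

lemma int_split {g : ℂ → ℂ} (hg : Continuous g) (p : ℝ → ℂ) (hp : Continuous p) {a b : ℝ}
    (hab : a ≤ b) (h1 : ∀ x ∈ Icc a b, p x ≠ 1) (h0 : ∀ x ∈ Icc a b, riemannZeta₁ (p x) ≠ 0) :
    ∫ x in a..b, ld (p x) * g (p x) =
      (∫ x in a..b, deriv riemannZeta₁ (p x) / riemannZeta₁ (p x) * g (p x)) -
      ∫ x in a..b, deriv (fun z : ℂ => z - 1) (p x) / (fun z : ℂ => z - 1) (p x) * g (p x) := by
  rw [← intervalIntegral.integral_sub
    (int_path differentiable_riemannZeta₁ hg p hp hab h0)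
    (int_path (F := fun z : ℂ => z - 1) (by fun_prop) hg p hp hab
      (fun x hx => sub_ne_zero.2 (h1 x hx)))]
  apply intervalIntegral.integral_congr
  intro x hx
  rw [uIcc_of_le hab] at hx
  simp only
  unfold ld
  rw [ld_split (h1 x hx) (h0 x hx)]
  ring

theorem resid (g : ℂ → ℂ) (hg : Differentiable ℂ g) (U : ℝ) (hU : good U) :
    (zsU U).Finite ∧
    (∫ x in (-1 / 2 : ℝ)..(3 / 2), ld (⟨x, -U⟩ : ℂ) * g ⟨x, -U⟩)
      - (∫ x in (-1 / 2 : ℝ)..(3 / 2), ld (⟨x, U⟩ : ℂ) * g ⟨x, U⟩)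
      + I * (∫ y in (-U)..U, ld (⟨3 / 2, y⟩ : ℂ) * g ⟨3 / 2, y⟩)
      - I * (∫ y in (-U)..U, ld (⟨-1 / 2, y⟩ : ℂ) * g ⟨-1 / 2, y⟩)
      = 2 * Real.pi * I * ((∑ s ∈ ZU U, (mult riemannZeta s : ℂ) * g s) - g 1) := by
  have hU2 := hU.1
  have hab : (-1 / 2 : ℝ) < 3 / 2 := by norm_num
  have hcd : -U < U := by linarith
  have hne : ∀ s ∈ Set.Icc (-1 / 2 : ℝ) (3 / 2) ×ℂ Set.Icc (-U) U, riemannZeta₁ s = 0 →
      s ∈ Set.Ioo (-1 / 2 : ℝ) (3 / 2) ×ℂ Set.Ioo (-U) U := by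
    intro s hs h
    rw [Complex.mem_reProdIm] at hs ⊢
    obtain ⟨⟨r1, r2⟩, ⟨i1, i2⟩⟩ := hs
    obtain ⟨z1, z2, z3, z4⟩ := z1_zero r1 h
    refine ⟨⟨by linarith, by linarith⟩, lt_of_le_of_ne i1 ?_, lt_of_le_of_ne i2 ?_⟩
    · intro hh
      have : s = (⟨s.re, -U⟩ : ℂ) := by apply Complex.ext <;> simp [hh]
      rw [this] at z4
      exact good_neg hU ⟨r1, r2⟩ z4
    · intro hh
      have : s = (⟨s.re, U⟩ : ℂ) := by apply Complex.ext <;> simp [hh]
      rw [this] at z4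
      exact hU.2 s.re ⟨r1, r2⟩ z4
  obtain ⟨f1, e1⟩ := rect_residue riemannZeta₁ g (-1 / 2) (3 / 2) (-U) U hab hcd
    (fun z _ => differentiable_riemannZeta₁.analyticAt z) hg hne
  obtain ⟨f2, e2⟩ := rect_residue (fun z : ℂ => z - 1) g (-1 / 2) (3 / 2) (-U) U hab hcd
    (fun z _ => by fun_prop) hg (by
      intro s _ h
      have hs : s = 1 := sub_eq_zero.1 h
      rw [hs, Complex.mem_reProdIm]
      simp only [one_re, one_im]
      refine ⟨⟨by norm_num, by norm_num⟩, by linarith, by linarith⟩)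
  have hset : {s | s ∈ Set.Ioo (-1 / 2 : ℝ) (3 / 2) ×ℂ Set.Ioo (-U) U ∧ riemannZeta₁ s = 0} =
      zsU U := by
    ext s
    constructor
    · rintro ⟨h1, h2⟩
      rw [Complex.mem_reProdIm] at h1
      obtain ⟨z1, z2, z3, z4⟩ := z1_zero h1.1.1.le h2
      exact ⟨z2, z3, abs_lt.2 h1.2, z4⟩
    · rintro ⟨z2, z3, h3, z4⟩
      refine ⟨?_, ?_⟩
      · rw [Complex.mem_reProdIm]
        exact ⟨⟨by linarith, by linarith⟩, abs_lt.1 h3⟩
      · have hs1 : s ≠ 1 := by
          rintro rfl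
          simp at z3
        rw [z1_of_ne hs1, z4, mul_zero]
  have hset2 : {s : ℂ | s ∈ Set.Ioo (-1 / 2 : ℝ) (3 / 2) ×ℂ Set.Ioo (-U) U ∧
      (fun z : ℂ => z - 1) s = 0} = {1} := by
    ext s
    constructor
    · rintro ⟨_, h2⟩
      exact sub_eq_zero.1 h2
    · intro h
      rw [Set.mem_singleton_iff] at h
      subst h
      refine ⟨?_, sub_self _⟩
      rw [Complex.mem_reProdIm]
      simp only [one_re, one_im]
      exact ⟨⟨by norm_num, by norm_num⟩, by linarith, by linarith⟩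
  rw [hset] at f1 e1
  rw [hset2] at e2
  have hS1 : ∑ᶠ s ∈ zsU U, (mult riemannZeta₁ s : ℂ) * g s =
      ∑ s ∈ ZU U, (mult riemannZeta s : ℂ) * g s := by
    rw [finsum_mem_eq_finite_toFinset_sum _ f1]
    unfold ZU
    rw [dif_pos f1]
    refine Finset.sum_congr rfl fun s hs => ?_
    have hs1 : s ≠ 1 := by
      rintro rfl
      have h := (f1.mem_toFinset.1 hs).2.1
      simp at h
    rw [mult_z1 hs1]
  have hS2 : ∑ᶠ s ∈ ({1} : Set ℂ), (mult (fun z : ℂ => z - 1) s : ℂ) * g s = g 1 := by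
    rw [finsum_mem_singleton, mult_id, Nat.cast_one, one_mul]
  rw [hS1] at e1
  rw [hS2] at e2
  refine ⟨f1, ?_⟩
  have hgc := hg.continuous
  have p1 := int_split hgc (fun x : ℝ => (⟨x, -U⟩ : ℂ)) (cont_mk1 _) hab.le
    (fun x _ h => by
      have := congrArg Complex.im h
      simp at this
      linarith)
    (fun x hx h => by
      have h2 := (hne _ (by rw [Complex.mem_reProdIm]; exact ⟨hx, le_rfl, hcd.le⟩) h)
      rw [Complex.mem_reProdIm] at h2
      exact lt_irrefl _ h2.2.1)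
  have p2 := int_split hgc (fun x : ℝ => (⟨x, U⟩ : ℂ)) (cont_mk1 _) hab.le
    (fun x _ h => by
      have := congrArg Complex.im h
      simp at this
      linarith)
    (fun x hx h => by
      have h2 := (hne _ (by rw [Complex.mem_reProdIm]; exact ⟨hx, hcd.le, le_rfl⟩) h)
      rw [Complex.mem_reProdIm] at h2
      exact lt_irrefl _ h2.2.2)
  have p3 := int_split hgc (fun y : ℝ => (⟨3 / 2, y⟩ : ℂ)) (cont_mk2 _) hcd.le
    (fun x _ h => by
      have := congrArg Complex.re h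
      simp at this
      norm_num at this)
    (fun x hx h => by
      have h2 := (hne _ (by rw [Complex.mem_reProdIm]; exact ⟨⟨hab.le, le_rfl⟩, hx⟩) h)
      rw [Complex.mem_reProdIm] at h2
      exact lt_irrefl _ h2.1.2)
  have p4 := int_split hgc (fun y : ℝ => (⟨-1 / 2, y⟩ : ℂ)) (cont_mk2 _) hcd.le
    (fun x _ h => by
      have := congrArg Complex.re h
      simp at this
      norm_num at this)
    (fun x hx h => by
      have h2 := (hne _ (by rw [Complex.mem_reProdIm]; exact ⟨⟨le_rfl, hab.le⟩, hx⟩) h)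
      rw [Complex.mem_reProdIm] at h2
      exact lt_irrefl _ h2.1.1)
  simp only at p1 p2 p3 p4 e2
  rw [p1, p2, p3, p4]
  linear_combination e1 - e2

end Pool.Agent.L5helper67.CV2
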